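import Pool.Agent.helper73.Nag.Bez
import Pool.Agent.helper7.SC.Defs

/-! Module BZ: weighted Bezout inequality and points on a curve. -/

set_option autoImplicit false

namespace Pool.Agent.helper7.SC

open MvPolynomial Pool.Agent.helper5.NBS Pool.Agent.helper73.Nag

private lemma ydeg_le_wdeg (N : ℕ) (F : R2) : N * ydeg F ≤ wdeg N F := by
  rw [ydeg, degreeOf_eq_sup, wdeg]
  rcases F.support.eq_empty_or_nonempty with h | h
  · rw [h]; simp
  · obtain ⟨n, hn, he⟩ := Finset.exists_mem_eq_sup F.support h (fun m : Fin 2 →₀ ℕ => m 1)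
    rw [he]
    refine le_trans ?_ (Finset.le_sup (f := fun m : Fin 2 →₀ ℕ => m 0 + N * m 1) hn)
    simp

theorem bezN (N : ℕ) {F P : R2} (hF : F ≠ 0) (hP : P ≠ 0) (hcop : IsRelPrime F P)
    {ι : Type} [Fintype ι] (p : ι → Fin 2 → ℂ) (hp : Function.Injective p) (m n : ι → ℕ)
    (hFm : ∀ i, F ∈ ptIdeal (p i) ^ m i) (hPm : ∀ i, P ∈ ptIdeal (p i) ^ n i) :
    N * (∑ i, m i * n i) ≤ wdeg N F * wdeg N P := by
  classical
  set I : ι → Ideal R2 := fun i => Ideal.span {F, P} ⊔ ptIdeal (p i) ^ (m i + n i) with hI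
  have hfinI : ∀ i, Module.Finite ℂ (R2 ⧸ I i) := fun i => (local_bez (hFm i) (hPm i)).1
  have hmI : ∀ i, m i * n i ≤ Module.finrank ℂ (R2 ⧸ I i) := fun i =>
    (local_bez (hFm i) (hPm i)).2
  have hcopI : Pairwise (Function.onFun IsCoprime I) := by
    intro i j hij
    have h1 : IsCoprime (ptIdeal (p i) ^ (m i + n i)) (ptIdeal (p j) ^ (m j + n j)) :=
      (ptIdeal_coprime (fun h => hij (hp h))).pow
    show IsCoprime (I i) (I j)
    rw [Ideal.isCoprime_iff_sup_eq] at h1 ⊢
    rw [eq_top_iff, ← h1]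
    exact sup_le_sup le_sup_right le_sup_right
  let Ψ : R2 →ₗ[ℂ] (∀ i, R2 ⧸ I i) :=
    LinearMap.pi (fun i => (Ideal.Quotient.mkₐ ℂ (I i)).toLinearMap)
  have hΨ : Function.Surjective Ψ := by
    intro x
    obtain ⟨r, hr⟩ := Ideal.pi_quotient_surjective hcopI x
    exact ⟨r, funext hr⟩
  have hfr : ∑ i, m i * n i ≤ Module.finrank ℂ (∀ i, R2 ⧸ I i) := by
    rw [Module.finrank_pi_fintype]
    exact Finset.sum_le_sum (fun i _ => hmI i)
  -- a spanning family
  let bas := Module.finBasis ℂ (∀ i, R2 ⧸ I i)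
  choose G hG using fun j => hΨ (bas j)
  set K0 := Finset.univ.sup (fun j => ydeg (G j)) with hK0
  set M0 := Finset.univ.sup (fun j => wdeg N (G j)) with hM0
  have hya : N * ydeg F ≤ wdeg N F := ydeg_le_wdeg N F
  have hya' : N * ydeg P ≤ wdeg N P := ydeg_le_wdeg N P
  set a := ydeg F with ha
  set b := wdeg N F with hb
  set a' := ydeg P with ha'
  set b' := wdeg N P with hb'
  set K := K0 + a + a' with hK
  set L := N * K + M0 + b + b' with hL
  have hKL : N * K ≤ L := by omega
  have hKL1 : N * (K - a) ≤ L - b := by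
    have : N * (K - a) ≤ N * K := Nat.mul_le_mul_left _ (by omega)
    omega
  have hKL2 : N * (K - a') ≤ L - b' := by
    have : N * (K - a') ≤ N * K := Nat.mul_le_mul_left _ (by omega)
    omega
  have hKL3 : N * (K - a - a') ≤ L - b - b' := by
    have : N * (K - a - a') ≤ N * K := Nat.mul_le_mul_left _ (by omega)
    omega
  set S1 := (V N (K - a) (L - b)).map (LinearMap.mulLeft ℂ F) with hS1
  set S2 := (V N (K - a') (L - b')).map (LinearMap.mulLeft ℂ P) with hS2
  set S3 := (V N (K - a - a') (L - b - b')).map (LinearMap.mulLeft ℂ (F * P)) with hS3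
  have f0 := finite_V N K L hKL
  have f1 : Module.Finite ℂ S1 := finite_map N _ _ hKL1 F
  have f2 : Module.Finite ℂ S2 := finite_map N _ _ hKL2 P
  have f3 : Module.Finite ℂ S3 := finite_map N _ _ hKL3 (F * P)
  have hle1 : S1 ≤ V N K L := by
    rintro _ ⟨U, hU, rfl⟩
    rw [SetLike.mem_coe, mem_V] at hU
    rw [LinearMap.mulLeft_apply]
    by_cases hU0 : U = 0
    · rw [hU0, mul_zero]; exact zero_mem _
    · rw [mem_V, ydeg_mul hF hU0, wdeg_mul N hF hU0]
      omega
  have hle2 : S2 ≤ V N K L := by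
    rintro _ ⟨U, hU, rfl⟩
    rw [SetLike.mem_coe, mem_V] at hU
    rw [LinearMap.mulLeft_apply]
    by_cases hU0 : U = 0
    · rw [hU0, mul_zero]; exact zero_mem _
    · rw [mem_V, ydeg_mul hP hU0, wdeg_mul N hP hU0]
      omega
  have hle3 : S1 ⊓ S2 ≤ S3 := by
    rintro x ⟨⟨U, hU, rfl⟩, ⟨W, hW, hUW⟩⟩
    rw [SetLike.mem_coe, mem_V] at hU
    rw [LinearMap.mulLeft_apply, LinearMap.mulLeft_apply] at hUW
    by_cases hU0 : U = 0
    · rw [hU0, map_zero]; exact zero_mem _
    have hdvd : P ∣ F * U := ⟨W, hUW.symm⟩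
    have hPU : P ∣ U := hcop.symm.dvd_of_dvd_mul_left hdvd
    obtain ⟨Q, rfl⟩ := hPU
    have hQ0 : Q ≠ 0 := by
      rintro rfl
      exact hU0 (mul_zero _)
    refine ⟨Q, ?_, ?_⟩
    · rw [SetLike.mem_coe, mem_V]
      rw [ydeg_mul hP hQ0, wdeg_mul N hP hQ0] at hU
      omega
    · simp only [LinearMap.mulLeft_apply]
      ring
  have hsup : S1 ⊔ S2 ≤ V N K L := sup_le hle1 hle2
  have hkerS : S1 ⊔ S2 ≤ LinearMap.ker Ψ := by
    apply sup_le
    · rintro _ ⟨U, hU, rfl⟩
      rw [LinearMap.mem_ker]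
      funext i
      show Ideal.Quotient.mk (I i) (F * U) = 0
      rw [Ideal.Quotient.eq_zero_iff_mem]
      exact Ideal.mul_mem_right _ _ (Ideal.mem_sup_left (Ideal.subset_span (by simp)))
    · rintro _ ⟨U, hU, rfl⟩
      rw [LinearMap.mem_ker]
      funext i
      show Ideal.Quotient.mk (I i) (P * U) = 0
      rw [Ideal.Quotient.eq_zero_iff_mem]
      exact Ideal.mul_mem_right _ _ (Ideal.mem_sup_left (Ideal.subset_span (by simp)))
  -- restriction of `Ψ`
  let Ψ0 : V N K L →ₗ[ℂ] (∀ i, R2 ⧸ I i) := Ψ.domRestrict (V N K L)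
  have hGV : ∀ j, G j ∈ V N K L := by
    intro j
    rw [mem_V]
    have h1 : ydeg (G j) ≤ K0 := Finset.le_sup (f := fun j => ydeg (G j)) (Finset.mem_univ j)
    have h2 : wdeg N (G j) ≤ M0 := Finset.le_sup (f := fun j => wdeg N (G j)) (Finset.mem_univ j)
    omega
  have hΨ0 : LinearMap.range Ψ0 = ⊤ := by
    rw [eq_top_iff, ← bas.span_eq, Submodule.span_le]
    rintro _ ⟨j, rfl⟩
    exact ⟨⟨G j, hGV j⟩, hG j⟩
  have h1 := LinearMap.finrank_range_add_finrank_ker Ψ0
  rw [hΨ0, finrank_top, finrank_V N K L hKL] at h1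
  have h2 : Module.finrank ℂ ↥(S1 ⊔ S2) ≤ Module.finrank ℂ (LinearMap.ker Ψ0) := by
    rw [← (Submodule.comapSubtypeEquivOfLe hsup).finrank_eq]
    apply Submodule.finrank_mono
    intro x hx
    rw [Submodule.mem_comap] at hx
    exact LinearMap.mem_ker.mp (hkerS hx)
  have h3 := Submodule.finrank_sup_add_finrank_inf_eq S1 S2
  have h4 : Module.finrank ℂ ↥(S1 ⊓ S2) ≤ cnt N (K - a - a') (L - b - b') := by
    rw [← finrank_map hKL3 (mul_ne_zero hF hP)]
    exact Submodule.finrank_mono hle3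
  have h5 : Module.finrank ℂ S1 = cnt N (K - a) (L - b) := finrank_map hKL1 hF
  have h6 : Module.finrank ℂ S2 = cnt N (K - a') (L - b') := finrank_map hKL2 hP
  have h7 : (∑ i, m i * n i) + cnt N (K - a) (L - b) + cnt N (K - a') (L - b') ≤
      cnt N K L + cnt N (K - a - a') (L - b - b') := by omega
  have c0 := two_cnt N K L hKL
  have c1 := two_cnt N (K - a) (L - b) hKL1
  have c2 := two_cnt N (K - a') (L - b') hKL2
  have c3 := two_cnt N (K - a - a') (L - b - b') hKL3
  have k1 : ((K - a : ℕ) : ℤ) = K - a := by rw [Nat.cast_sub (by omega)]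
  have k2 : ((K - a' : ℕ) : ℤ) = K - a' := by rw [Nat.cast_sub (by omega)]
  have k3 : ((K - a - a' : ℕ) : ℤ) = K - a - a' := by
    rw [Nat.cast_sub (by omega), Nat.cast_sub (by omega)]
  have l1 : ((L - b : ℕ) : ℤ) = L - b := by rw [Nat.cast_sub (by omega)]
  have l2 : ((L - b' : ℕ) : ℤ) = L - b' := by rw [Nat.cast_sub (by omega)]
  have l3 : ((L - b - b' : ℕ) : ℤ) = L - b - b' := by
    rw [Nat.cast_sub (by omega), Nat.cast_sub (by omega)]
  rw [k1, l1] at c1
  rw [k2, l2] at c2
  rw [k3, l3] at c3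
  have h8 : ((∑ i, m i * n i : ℕ) : ℤ) + cnt N (K - a) (L - b) + cnt N (K - a') (L - b') ≤
      cnt N K L + cnt N (K - a - a') (L - b - b') := by exact_mod_cast h7
  have h9 := arith_aux _ _ _ _ _ _ _ _ _ _ _ _ c0 c1 c2 c3 h8
  have h10 : (N : ℤ) * ((∑ i, m i * n i : ℕ) : ℤ) ≤ b * b' := by
    have e1 : (0 : ℤ) ≤ b - N * a := by
      have : ((N * a : ℕ) : ℤ) ≤ b := by exact_mod_cast hya
      push_cast at this
      linarith
    have e2 : (0 : ℤ) ≤ b' - N * a' := by
      have : ((N * a' : ℕ) : ℤ) ≤ b' := by exact_mod_cast hya'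
      push_cast at this
      linarith
    have e3 : (0 : ℤ) ≤ (b - N * a) * (b' - N * a') := mul_nonneg e1 e2
    have e4 : ((b : ℤ) - N * a) * (b' - N * a') = b * b' - N * (a * b' + b * a' - N * a * a') := by ring
    have e5 : (N : ℤ) * ((∑ i, m i * n i : ℕ) : ℤ) ≤ N * (a * b' + b * a' - N * a * a') :=
      mul_le_mul_of_nonneg_left (by linarith) (by positivity)
    linarith
  exact_mod_cast h10

theorem infinite_zeros {F : R2} (hF : Irreducible F) :
    {p : Fin 2 → ℂ | eval p F = 0}.Infinite := by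
  classical
  have hfin : ∀ c : ℂ, ∀ H : R2, X 0 - C c = F * H → {p : Fin 2 → ℂ | eval p F = 0}.Infinite := by
    intro c H h
    have hX : (X 0 - C c : R2) ≠ 0 := by
      intro h0
      have h1 := congrArg (eval (fun _ => c + 1)) h0
      simp at h1
    have hH0 : H ≠ 0 := by
      rintro rfl
      rw [mul_zero] at h
      exact hX h
    have hdeg : (X 0 - C c : R2).totalDegree ≤ 1 := by
      refine (totalDegree_sub _ _).trans ?_
      rw [totalDegree_X, totalDegree_C]
      simp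
    rw [h, totalDegree_mul_of_isDomain hF.ne_zero hH0] at hdeg
    have hF1 : F.totalDegree ≠ 0 := by
      intro h0
      rw [totalDegree_eq_zero_iff_eq_C] at h0
      apply hF.not_isUnit
      rw [h0]
      apply IsUnit.map
      rw [isUnit_iff_ne_zero]
      intro h2
      rw [h2, C_0] at h0
      exact hF.ne_zero h0
    have hH1 : H.totalDegree = 0 := by omega
    rw [totalDegree_eq_zero_iff_eq_C] at hH1
    have hc : coeff 0 H ≠ 0 := by
      intro h2
      rw [h2, C_0] at hH1
      exact hH0 hH1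
    have hz : ∀ y : ℂ, eval ![c, y] F = 0 := by
      intro y
      have h3 := congrArg (eval ![c, y]) h
      rw [hH1] at h3
      simp only [map_sub, map_mul, eval_X, eval_C, Matrix.cons_val_zero, sub_self] at h3
      rcases mul_eq_zero.mp h3.symm with h4 | h4
      · exact h4
      · exact absurd h4 hc
    have hinj : Function.Injective (fun y : ℂ => (![c, y] : Fin 2 → ℂ)) := by
      intro y y' hy
      have := congrFun hy 1
      simpa using this
    refine (Set.infinite_range_of_injective hinj).mono ?_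
    rintro _ ⟨y, rfl⟩
    exact hz y
  by_contra hni
  have hinf : ({p : Fin 2 → ℂ | eval p F = 0}).Finite := Set.not_infinite.mp hni
  set g : R2 := ∏ p ∈ hinf.toFinset, (X 0 - C (p 0)) with hg
  have hrad : g ∈ (Ideal.span {F}).radical := by
    rw [← vanishingIdeal_zeroLocus_eq_radical (K := ℂ)]
    rw [mem_vanishingIdeal_iff]
    intro p hp
    rw [mem_zeroLocus_iff] at hp
    have hpF : eval p F = 0 := by
      have := hp F (Ideal.mem_span_singleton_self F)
      simpa [aeval_eq_eval] using this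
    have : p ∈ hinf.toFinset := by
      rw [Set.Finite.mem_toFinset]
      exact hpF
    rw [hg, map_prod]
    apply Finset.prod_eq_zero this
    simp
  obtain ⟨k, hk⟩ := hrad
  rw [Ideal.mem_span_singleton] at hk
  have hprime : Prime F := hF.prime
  have h1 := hprime.dvd_of_dvd_pow hk
  rw [hg, Prime.dvd_finsetProd_iff hprime] at h1
  obtain ⟨p, hp, H, hH⟩ := h1
  exact hni (hfin _ H hH)

end Pool.Agent.helper7.SC
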