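import Pool.Agent.helper41.SC.BZ

/-! Module NEF: on the weighted plane, nef implies volume = self-intersection. -/

set_option autoImplicit false

namespace Pool.Agent.helper41.SC

open MvPolynomial Pool.Agent.helper5.NBS Pool.Agent.helper7.SC

/-- polynomials of weighted degree at most `s` with multiplicity at least `μ i` at `q i` -/
noncomputable def VV (N s : ℕ) {r : ℕ} (μ : Fin r → ℕ) (q : Fin r → Fin 2 → ℂ) :
    Submodule ℂ R2 :=
  restrictSupport ℂ {n : Fin 2 →₀ ℕ | n 0 + N * n 1 ≤ s} ⊓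
    ⨅ i, (ptIdeal (q i) ^ μ i).restrictScalars ℂ

lemma Vsys_eq (N s M : ℕ) {r : ℕ} (q : Fin r → Fin 2 → ℂ) :
    Vsys N s M q = VV N s (fun _ => M) q := rfl

lemma mem_VV {N s : ℕ} {r : ℕ} {μ : Fin r → ℕ} {q : Fin r → Fin 2 → ℂ} {F : R2} :
    F ∈ VV N s μ q ↔ wdeg N F ≤ s ∧ ∀ i, F ∈ ptIdeal (q i) ^ μ i := by
  rw [VV, Submodule.mem_inf, mem_restrictSupport_iff, Submodule.mem_iInf, wdeg,
    Finset.sup_le_iff]
  apply and_congr
  · constructor
    · intro h n hn
      exact h hn
    · intro h n hn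
      exact h n hn
  · rfl

lemma finite_VV {N : ℕ} (hN : 0 < N) (s : ℕ) {r : ℕ} (μ : Fin r → ℕ) (q : Fin r → Fin 2 → ℂ) :
    Module.Finite ℂ (VV N s μ q) := by
  have hfin := finite_V N (s / N) s (Nat.mul_div_le s N)
  have hle : VV N s μ q ≤ V N (s / N) s := by
    intro F hF
    rw [VV, Submodule.mem_inf] at hF
    have h1 := hF.1
    rw [mem_restrictSupport_iff] at h1
    rw [V, mem_restrictSupport_iff]
    intro n hn
    have h2 : n 0 + N * n 1 ≤ s := h1 hn
    refine ⟨?_, h2⟩
    rw [Nat.le_div_iff_mul_le hN, mul_comm]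
    omega
  exact Submodule.finiteDimensional_of_le hle

lemma rank_le {E : Type} [AddCommGroup E] [Module ℂ E] [Module.Finite ℂ E]
    (V V' : Submodule ℂ R2) [Module.Finite ℂ V] [Module.Finite ℂ V'] (f : R2 →ₗ[ℂ] E)
    (h : ∀ F ∈ V, f F = 0 → F ∈ V') :
    Module.finrank ℂ V ≤ Module.finrank ℂ E + Module.finrank ℂ V' := by
  let g : V →ₗ[ℂ] E := f ∘ₗ V.subtype
  have h1 := LinearMap.finrank_range_add_finrank_ker g
  have h2 : Module.finrank ℂ (LinearMap.range g) ≤ Module.finrank ℂ E := Submodule.finrank_le _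
  have h3 : Module.finrank ℂ (LinearMap.ker g) ≤ Module.finrank ℂ V' := by
    let φ : LinearMap.ker g →ₗ[ℂ] V' := LinearMap.codRestrict V'
      (V.subtype ∘ₗ (LinearMap.ker g).subtype)
      (fun x => h _ x.1.2 (LinearMap.mem_ker.mp x.2))
    apply LinearMap.finrank_le_finrank_of_injective (f := φ)
    intro x y hxy
    have h4 := congrArg Subtype.val hxy
    exact Subtype.ext (Subtype.ext h4)
  omega

/-- removing an irreducible curve -/
lemma stepA {N : ℕ} (hN : 0 < N) {r : ℕ} (q : Fin r → Fin 2 → ℂ) (hq : Function.Injective q)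
    {G : R2} (hG : Irreducible G) (s t : ℕ) (μ : Fin r → ℕ)
    (h : s * wdeg N G < N * (∑ i, μ i * mult (q i) G + t)) :
    Module.finrank ℂ (VV N s μ q) ≤
      t + Module.finrank ℂ (VV N (s - wdeg N G) (fun i => μ i - mult (q i) G) q) := by
  classical
  have hinf : ({p : Fin 2 → ℂ | eval p G = 0} \ Set.range q).Infinite :=
    (infinite_zeros hG).sdiff (Set.finite_range q)
  obtain ⟨T, hT, hcard⟩ := hinf.exists_subset_card_eq t
  have hT0 : ∀ p ∈ T, eval p G = 0 := fun p hp => (hT hp).1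
  have hTq : ∀ p ∈ T, ∀ i, q i ≠ p := fun p hp i he => (hT hp).2 ⟨i, he⟩
  have f1 := finite_VV hN s μ q
  have f2 := finite_VV hN (s - wdeg N G) (fun i => μ i - mult (q i) G) q
  let f : R2 →ₗ[ℂ] (T → ℂ) := LinearMap.pi fun p => (aeval (R := ℂ) p.1).toLinearMap
  have key : ∀ F ∈ VV N s μ q, f F = 0 →
      F ∈ (VV N (s - wdeg N G) (fun i => μ i - mult (q i) G) q).map (LinearMap.mulLeft ℂ G) := by
    intro F hF hf
    rw [mem_VV] at hF
    by_cases hF0 : F = 0
    · rw [hF0]; exact zero_mem _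
    have hdvd : G ∣ F := by
      by_contra hnd
      have hcop : IsRelPrime G F := (Irreducible.isRelPrime_iff_not_dvd hG).mpr hnd
      have hinj : Function.Injective (Sum.elim q (fun p : T => p.1)) := by
        rintro (i | p) (j | p') he
        · exact congrArg _ (hq he)
        · exact absurd he (hTq _ p'.2 i)
        · exact absurd he.symm (hTq _ p.2 j)
        · exact congrArg _ (Subtype.ext he)
      have h1 := bezN N hG.ne_zero hF0 hcop (Sum.elim q (fun p : T => p.1)) hinj
        (Sum.elim (fun i => mult (q i) G) (fun _ => 1)) (Sum.elim μ (fun _ => 1))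
        (by
          rintro (i | p)
          · exact (mem_pow_iff_le_mult hG.ne_zero).mpr le_rfl
          · show G ∈ ptIdeal p.1 ^ 1
            rw [pow_one, mem_ptIdeal_iff]
            exact hT0 _ p.2)
        (by
          rintro (i | p)
          · exact hF.2 i
          · show F ∈ ptIdeal p.1 ^ 1
            rw [pow_one, mem_ptIdeal_iff]
            have := congrFun hf p
            simpa [f, aeval_eq_eval] using this)
      rw [Fintype.sum_sum_type] at h1
      simp only [Sum.elim_inl, Sum.elim_inr, mul_one, Finset.sum_const, Finset.card_univ,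
        Fintype.card_coe, hcard, smul_eq_mul] at h1
      have h2 : ∑ i, mult (q i) G * μ i = ∑ i, μ i * mult (q i) G :=
        Finset.sum_congr rfl (fun i _ => mul_comm _ _)
      rw [h2] at h1
      have h3 : wdeg N G * wdeg N F ≤ s * wdeg N G := by
        rw [mul_comm]
        exact Nat.mul_le_mul_right _ hF.1
      omega
    obtain ⟨H, rfl⟩ := hdvd
    have hH0 : H ≠ 0 := by
      rintro rfl
      exact hF0 (mul_zero _)
    refine ⟨H, ?_, rfl⟩
    rw [SetLike.mem_coe, mem_VV]
    constructor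
    · have := hF.1
      rw [wdeg_mul N hG.ne_zero hH0] at this
      omega
    · intro i
      have := hF.2 i
      rw [mem_pow_iff_le_mult hF0, mult_mul hG.ne_zero hH0] at this
      rw [mem_pow_iff_le_mult hH0]
      omega
  have h1 := rank_le (VV N s μ q) ((VV N (s - wdeg N G) (fun i => μ i - mult (q i) G) q).map
    (LinearMap.mulLeft ℂ G)) f key
  have h2 := Submodule.finrank_map_le (LinearMap.mulLeft ℂ G)
    (VV N (s - wdeg N G) (fun i => μ i - mult (q i) G) q)
  rw [Module.finrank_fintype_fun_eq_card, Fintype.card_coe, hcard] at h1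
  omega

/-- lowering the weighted degree by one -/
lemma stepB {N : ℕ} (hN : 0 < N) {r : ℕ} (q : Fin r → Fin 2 → ℂ) (s : ℕ) (μ : Fin r → ℕ) :
    Module.finrank ℂ (VV N (s + 1) μ q) ≤ (s + 1) / N + 1 + Module.finrank ℂ (VV N s μ q) := by
  have f1 := finite_VV hN (s + 1) μ q
  have f2 := finite_VV hN s μ q
  let f : R2 →ₗ[ℂ] (Fin ((s + 1) / N + 1) → ℂ) := LinearMap.pi fun j =>
    lcoeff ℂ (Finsupp.single 0 (s + 1 - N * j) + Finsupp.single 1 (j : ℕ))
  have key : ∀ F ∈ VV N (s + 1) μ q, f F = 0 → F ∈ VV N s μ q := by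
    intro F hF hf
    rw [mem_VV] at hF ⊢
    refine ⟨?_, hF.2⟩
    have h1 := hF.1
    rw [wdeg, Finset.sup_le_iff] at h1 ⊢
    intro n hn
    have h2 := h1 n hn
    by_contra h3
    have h4 : n 0 + N * n 1 = s + 1 := by omega
    have h5 : n 1 ≤ (s + 1) / N := by
      rw [Nat.le_div_iff_mul_le hN, mul_comm]
      omega
    have h6 := congrFun hf ⟨n 1, Nat.lt_succ_of_le h5⟩
    have h7 : (Finsupp.single 0 (s + 1 - N * n 1) + Finsupp.single 1 (n 1) : Fin 2 →₀ ℕ) = n := by
      ext i
      fin_cases i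
      · simp
        omega
      · simp
    rw [mem_support_iff] at hn
    apply hn
    have h8 : coeff (Finsupp.single 0 (s + 1 - N * n 1) + Finsupp.single 1 (n 1)) F = 0 := h6
    rwa [h7] at h8
  have h1 := rank_le (VV N (s + 1) μ q) (VV N s μ q) f key
  rw [Module.finrank_fintype_fun_eq_card, Fintype.card_fin] at h1
  exact h1

lemma stepB' {N : ℕ} (hN : 0 < N) {r : ℕ} (q : Fin r → Fin 2 → ℂ) (s k : ℕ) (μ : Fin r → ℕ) :
    Module.finrank ℂ (VV N (s + k) μ q) ≤ k * ((s + k) / N + 1) +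
      Module.finrank ℂ (VV N s μ q) := by
  have key : ∀ j, j ≤ k → Module.finrank ℂ (VV N (s + j) μ q) ≤ j * ((s + k) / N + 1) +
      Module.finrank ℂ (VV N s μ q) := by
    intro j
    induction j with
    | zero => intro _; simp
    | succ j ih =>
      intro hj
      have h1 := ih (by omega)
      have h2 := stepB hN q (s + j) μ
      have h3 : (s + j + 1) / N ≤ (s + k) / N := Nat.div_le_div_right (by omega)
      have h4 : (j + 1) * ((s + k) / N + 1) = j * ((s + k) / N + 1) + ((s + k) / N + 1) := by ring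
      rw [h4, ← add_assoc s j 1]
      omega
  exact key k le_rfl

/-- number of exponents -/
lemma card_exps2 (a b : ℕ) : Finite {n : Fin 2 →₀ ℕ // a ≤ n.degree ∧ n.degree < b} ∧
    Nat.card {n : Fin 2 →₀ ℕ // a ≤ n.degree ∧ n.degree < b} ≤ (b - a) * b := by
  let g : {n : Fin 2 →₀ ℕ // a ≤ n.degree ∧ n.degree < b} → Fin (b - a) × Fin b := fun n =>
    (⟨n.1.degree - a, by have := n.2; omega⟩, ⟨n.1 0, by
      have := n.2
      rw [degree_eq] at this
      omega⟩)
  have hg : Function.Injective g := by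
    intro n m h
    have h1 : n.1.degree - a = m.1.degree - a := congrArg (fun x => (x.1 : ℕ)) h
    have h2 : n.1 0 = m.1 0 := congrArg (fun x => (x.2 : ℕ)) h
    have h3 := n.2
    have h4 := m.2
    rw [degree_eq] at h1 h3
    rw [degree_eq] at h1 h4
    apply Subtype.ext
    ext i
    fin_cases i
    · exact h2
    · show n.1 1 = m.1 1
      omega
  refine ⟨Finite.of_injective g hg, ?_⟩
  have := Nat.card_le_card_of_injective g hg
  rwa [Nat.card_prod, Nat.card_fin, Nat.card_fin] at this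

/-- raising the multiplicities -/
lemma stepC {N : ℕ} (hN : 0 < N) {r : ℕ} (q : Fin r → Fin 2 → ℂ) (s : ℕ) (μ μ' : Fin r → ℕ) :
    Module.finrank ℂ (VV N s μ q) ≤ ∑ i, (μ' i - μ i) * μ' i +
      Module.finrank ℂ (VV N s μ' q) := by
  classical
  have f1 := finite_VV hN s μ q
  have f2 := finite_VV hN s μ' q
  have f3 : ∀ i, Finite {n : Fin 2 →₀ ℕ // μ i ≤ n.degree ∧ n.degree < μ' i} := fun i =>
    (card_exps2 _ _).1
  have f4 : ∀ i, Fintype {n : Fin 2 →₀ ℕ // μ i ≤ n.degree ∧ n.degree < μ' i} := fun i =>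
    Fintype.ofFinite _
  let f : R2 →ₗ[ℂ] (∀ i, ({n : Fin 2 →₀ ℕ // μ i ≤ n.degree ∧ n.degree < μ' i} → ℂ)) :=
    LinearMap.pi fun i => LinearMap.pi fun n => (lcoeff ℂ n.1) ∘ₗ (trans (q i)).toLinearMap
  have key : ∀ F ∈ VV N s μ q, f F = 0 → F ∈ VV N s μ' q := by
    intro F hF hf
    rw [mem_VV] at hF ⊢
    refine ⟨hF.1, fun i => ?_⟩
    have h1 := hF.2 i
    rw [mem_ptIdeal_pow] at h1 ⊢
    intro n hn
    by_cases h2 : n.degree < μ i
    · exact h1 n h2
    · exact congrFun (congrFun hf i) ⟨n, not_lt.mp h2, hn⟩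
  have h1 := rank_le (VV N s μ q) (VV N s μ' q) f key
  refine h1.trans (Nat.add_le_add_right ?_ _)
  rw [Module.finrank_pi_fintype]
  apply Finset.sum_le_sum
  intro i _
  rw [Module.finrank_fintype_fun_eq_card, ← Nat.card_eq_fintype_card]
  exact (card_exps2 _ _).2

lemma wdeg_unit (N : ℕ) {u : R2} (hu : IsUnit u) : wdeg N u = 0 := by
  obtain ⟨v, hv⟩ := hu.exists_right_inv
  have hv0 : v ≠ 0 := by
    rintro rfl
    rw [mul_zero] at hv
    exact zero_ne_one hv
  have h := wdeg_mul N hu.ne_zero hv0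
  have h1 : wdeg N (1 : R2) = 0 := by
    have h2 := wdeg_mul N (one_ne_zero : (1 : R2) ≠ 0) (one_ne_zero : (1 : R2) ≠ 0)
    rw [mul_one] at h2
    omega
  rw [hv, h1] at h
  omega

/-- removing a curve -/
lemma claim {N : ℕ} (hN : 0 < N) {r : ℕ} (q : Fin r → Fin 2 → ℂ) (hq : Function.Injective q)
    (A B : ℕ) (hnef : ∀ F : R2, Irreducible F → A * smult q F ≤ B * wdeg N F) (c0 : ℕ) (P : R2) :
    P ≠ 0 → ∀ L : ℕ, ∃ K : ℕ, ∀ (b s : ℕ) (μ : Fin r → ℕ), s ≤ N * B * b + c0 →
      (∀ i, A * b ≤ μ i + L) →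
      Module.finrank ℂ (VV N s μ q) + b * (A * smult q P) ≤ b * (B * wdeg N P) + K +
        Module.finrank ℂ (VV N (s - wdeg N P) (fun i => μ i - mult (q i) P) q) := by
  induction P using WfDvdMonoid.induction_on_irreducible with
  | zero => intro h0; exact absurd rfl h0
  | unit u hu =>
    intro _ L
    refine ⟨0, fun b s μ _ _ => ?_⟩
    have h0 : smult q u = 0 := by
      rw [smult]
      exact Finset.sum_eq_zero (fun i _ => mult_unit (q i) hu)
    have h1 := wdeg_unit N hu
    have h2 : (fun i => μ i - mult (q i) u) = μ := by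
      funext i
      rw [mult_unit (q i) hu]
      simp
    rw [h0, h1, h2]
    simp
  | mul a g ha hg ih =>
    intro _ L
    obtain ⟨K, hK⟩ := ih ha (L + smult q g)
    refine ⟨K + (c0 * wdeg N g + L * smult q g + 1), fun b s μ hs hμ => ?_⟩
    have hn := hnef g hg
    set w := wdeg N g with hw
    set σ := smult q g with hσ
    -- first step
    obtain ⟨d, hd⟩ : ∃ d, B * w = A * σ + d := ⟨B * w - A * σ, by omega⟩
    have h1 := stepA hN q hq hg s (b * d + (c0 * w + L * σ + 1)) μ (by
      rw [← hw]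
      have h2 : b * (A * σ) ≤ ∑ i, μ i * mult (q i) g + L * σ := by
        rw [hσ, smult, Finset.mul_sum, Finset.mul_sum, Finset.mul_sum, ← Finset.sum_add_distrib]
        apply Finset.sum_le_sum
        intro i _
        have h3 := Nat.mul_le_mul_right (mult (q i) g) (hμ i)
        calc b * (A * mult (q i) g) = A * b * mult (q i) g := by ring
          _ ≤ (μ i + L) * mult (q i) g := h3
          _ = _ := by ring
      have h4 : s * w ≤ (N * B * b + c0) * w := Nat.mul_le_mul_right _ hs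
      have h5 : (N * B * b + c0) * w = N * (b * (B * w)) + c0 * w := by ring
      have h6 : N * (b * (B * w)) + N * (c0 * w) + N ≤
          N * (∑ i, μ i * mult (q i) g + (b * d + (c0 * w + L * σ + 1))) := by
        have h7 : b * (B * w) + c0 * w + 1 ≤
            ∑ i, μ i * mult (q i) g + (b * d + (c0 * w + L * σ + 1)) := by
          rw [hd, mul_add]
          omega
        calc N * (b * (B * w)) + N * (c0 * w) + N = N * (b * (B * w) + c0 * w + 1) := by ring
          _ ≤ _ := Nat.mul_le_mul_left _ h7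
      have h8 : c0 * w ≤ N * (c0 * w) := Nat.le_mul_of_pos_left _ hN
      omega)
    rw [← hw] at h1
    -- the rest
    have h2 := hK b (s - w) (fun i => μ i - mult (q i) g) (by omega) (by
      intro i
      have h3 := hμ i
      have h4 : mult (q i) g ≤ σ := by
        rw [hσ, smult]
        exact Finset.single_le_sum (f := fun i => mult (q i) g) (fun _ _ => Nat.zero_le _)
          (Finset.mem_univ i)
      omega)
    have h3 : wdeg N (g * a) = w + wdeg N a := wdeg_mul N hg.ne_zero ha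
    have h4 : smult q (g * a) = σ + smult q a := smult_mul q hg.ne_zero ha
    have h5 : (fun i => μ i - mult (q i) (g * a)) =
        (fun i => (μ i - mult (q i) g) - mult (q i) a) := by
      funext i
      rw [mult_mul hg.ne_zero ha, Nat.sub_sub]
    rw [h3, h4, h5, ← Nat.sub_sub]
    have h6 : b * (B * (w + wdeg N a)) = b * (A * σ) + b * d + b * (B * wdeg N a) := by
      rw [mul_add, hd]; ring
    have h7 : b * (A * (σ + smult q a)) = b * (A * σ) + b * (A * smult q a) := by ring
    rw [h6, h7]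
    omega

/-- the recursion -/
lemma recur {N : ℕ} (hN : 0 < N) {r : ℕ} (q : Fin r → Fin 2 → ℂ) (hq : Function.Injective q)
    (A B : ℕ) (hnef : ∀ F : R2, Irreducible F → A * smult q F ≤ B * wdeg N F)
    (hpos : r * A ^ 2 < N * B ^ 2) (c0 : ℕ) :
    ∃ β K : ℕ, 0 < β ∧ ∀ b : ℕ,
      Module.finrank ℂ (Vsys N (N * B * (b + β) + c0) (A * (b + β)) q) + r * A ^ 2 * β * (b + β) ≤
        Module.finrank ℂ (Vsys N (N * B * b + c0) (A * b) q) + N * B ^ 2 * β * (b + β) + K := by
  set β := r * A + 1 with hβ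
  obtain ⟨G, hG0, hGV, hGm⟩ := exists_curve N (B * β) (N * (B * β)) le_rfl q (A * β) (by
    have h1 := two_cnt N (B * β) (N * (B * β)) le_rfl
    have h2 : ((r * (A * β * (A * β + 1)) : ℕ) : ℤ) < 2 * (cnt N (B * β) (N * (B * β)) : ℤ) := by
      rw [h1]
      push_cast
      have h3 : (r : ℤ) * A ^ 2 + 1 ≤ N * B ^ 2 := by exact_mod_cast hpos
      have h4 : (β : ℤ) = r * A + 1 := by exact_mod_cast hβ
      have h5 : ((r : ℤ) * A ^ 2 + 1) * (β : ℤ) ^ 2 ≤ N * B ^ 2 * (β : ℤ) ^ 2 :=
        mul_le_mul_of_nonneg_right h3 (by positivity)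
      have h6 : (β : ℤ) ^ 2 = β * (r * A) + β := by
        rw [pow_two]
        nth_rewrite 2 [h4]
        ring
      have h7 : (0 : ℤ) ≤ 2 * (B * β) + N * B * β := by positivity
      have h8 : (0 : ℤ) ≤ β := by positivity
      nlinarith
    exact_mod_cast h2)
  rw [mem_V] at hGV
  obtain ⟨K, hK⟩ := claim hN q hq A B hnef c0 G hG0 0
  set w := wdeg N G with hw
  obtain ⟨k, hk⟩ : ∃ k, N * (B * β) = w + k := ⟨N * (B * β) - w, by omega⟩
  have hν : ∀ i, A * β ≤ mult (q i) G := fun i => (mem_pow_iff_le_mult hG0).mp (hGm i)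
  refine ⟨β, K + k * (c0 + k + 1), by omega, fun b => ?_⟩
  have h1 := hK (b + β) (N * B * (b + β) + c0) (fun _ => A * (b + β)) le_rfl (fun i => by simp)
  have e1 : N * B * (b + β) + c0 - w = (N * B * b + c0) + k := by
    have : N * B * (b + β) = N * B * b + N * (B * β) := by ring
    omega
  rw [e1] at h1
  have h2 := stepB' hN q (N * B * b + c0) k (fun i => A * (b + β) - mult (q i) G)
  have h3 := stepC hN q (N * B * b + c0) (fun i => A * (b + β) - mult (q i) G) (fun _ => A * b)
  have h4 : k * ((N * B * b + c0 + k) / N + 1) ≤ k * (B * (b + β)) + k * (c0 + k + 1) := by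
    rw [← mul_add]
    apply Nat.mul_le_mul_left
    have h5 : (N * B * b + c0 + k) / N ≤ B * b + (c0 + k) := by
      have h6 : N * B * b + c0 + k = (c0 + k) + N * (B * b) := by ring
      rw [h6, Nat.add_mul_div_left _ _ hN]
      have := Nat.div_le_self (c0 + k) N
      omega
    have h7 : B * b ≤ B * (b + β) := Nat.mul_le_mul_left _ (by omega)
    omega
  have h5 : ∑ i, (A * b - (A * (b + β) - mult (q i) G)) * (A * b) + r * (A * β) * (A * (b + β)) ≤
      smult q G * (A * (b + β)) := by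
    have h6 : r * (A * β) * (A * (b + β)) = ∑ _i : Fin r, (A * β) * (A * (b + β)) := by
      simp
      ring
    rw [h6, smult, Finset.sum_mul, ← Finset.sum_add_distrib]
    apply Finset.sum_le_sum
    intro i _
    have h7 := hν i
    obtain ⟨e, he⟩ : ∃ e, mult (q i) G = A * β + e := ⟨mult (q i) G - A * β, by omega⟩
    have h8 : A * b - (A * (b + β) - mult (q i) G) ≤ e := by
      rw [mul_add]
      omega
    rw [he] at h8
    rw [he, add_mul, add_comm]
    apply Nat.add_le_add_left
    exact Nat.mul_le_mul h8 (Nat.mul_le_mul_left _ (by omega))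
  rw [Vsys_eq, Vsys_eq]
  have e2 : (b + β) * (B * w) + k * (B * (b + β)) = N * B ^ 2 * β * (b + β) := by
    have : (b + β) * (B * w) + k * (B * (b + β)) = (b + β) * B * (w + k) := by ring
    rw [this, ← hk]
    ring
  have e3 : r * (A * β) * (A * (b + β)) = r * A ^ 2 * β * (b + β) := by ring
  have e4 : smult q G * (A * (b + β)) = (b + β) * (A * smult q G) := by ring
  rw [e3, e4] at h5
  omega

end Pool.Agent.helper41.SC

namespace Pool.Agent.helper7.SC

open MvPolynomial Pool.Agent.helper5.NBS Pool.Agent.helper41.SC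

theorem vol_le (N : ℕ) (hN : 0 < N) {r : ℕ} (q : Fin r → Fin 2 → ℂ) (hq : Function.Injective q)
    (A B : ℕ) (hB : 0 < B) (hnef : ∀ F : R2, Irreducible F → A * smult q F ≤ B * wdeg N F)
    (hpos : r * A ^ 2 < N * B ^ 2) (c0 : ℕ) :
    ∃ C : ℝ, ∀ b : ℕ, 2 * (Module.finrank ℂ (Vsys N (N * B * b + c0) (A * b) q) : ℝ) ≤
      ((N : ℝ) * B ^ 2 - r * A ^ 2) * b ^ 2 + C * (b + 1) := by
  obtain ⟨β, K, hβ, hrec⟩ := recur hN q hq A B hnef hpos c0
  set D : ℕ → ℕ := fun b => Module.finrank ℂ (Vsys N (N * B * b + c0) (A * b) q) with hD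
  have hrec' : ∀ b, D (b + β) + r * A ^ 2 * β * (b + β) ≤ D b + N * B ^ 2 * β * (b + β) + K :=
    hrec
  set δ : ℝ := (N : ℝ) * B ^ 2 - r * A ^ 2 with hδ
  have hδ0 : 0 ≤ δ := by
    have : ((r * A ^ 2 : ℕ) : ℝ) ≤ ((N * B ^ 2 : ℕ) : ℝ) := by exact_mod_cast hpos.le
    push_cast at this
    linarith
  set M : ℕ := ∑ b ∈ Finset.range β, D b with hM
  have hβ1 : (1 : ℝ) ≤ β := by exact_mod_cast hβ
  refine ⟨2 * M + δ * β + 2 * K, fun b => ?_⟩
  show 2 * (D b : ℝ) ≤ δ * b ^ 2 + (2 * M + δ * β + 2 * K) * (b + 1)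
  induction b using Nat.strong_induction_on with
  | _ b ih =>
    rcases Nat.lt_or_ge b β with hb | hb
    · have h1 : D b ≤ M := Finset.single_le_sum (f := D) (fun _ _ => Nat.zero_le _)
        (Finset.mem_range.mpr hb)
      have h2 : (D b : ℝ) ≤ M := by exact_mod_cast h1
      have h3 : (0 : ℝ) ≤ δ * b ^ 2 := by positivity
      have h4 : (0 : ℝ) ≤ 2 * M * b := by positivity
      have h5 : (0 : ℝ) ≤ (δ * β + 2 * K) * (b + 1) := by positivity
      nlinarith
    · obtain ⟨b', rfl⟩ : ∃ b', b = b' + β := ⟨b - β, by omega⟩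
      have h1 := ih b' (by omega)
      have h2 : (D (b' + β) : ℝ) + r * A ^ 2 * β * (b' + β) ≤
          D b' + N * B ^ 2 * β * (b' + β) + K := by exact_mod_cast hrec' b'
      have h3 : (D (b' + β) : ℝ) ≤ D b' + δ * β * (b' + β) + K := by
        rw [hδ]
        linarith
      push_cast
      have h4 : (0 : ℝ) ≤ M := by positivity
      have h5 : (0 : ℝ) ≤ K := by positivity
      have h6 : (0 : ℝ) ≤ M * β := by positivity
      have h7 : (K : ℝ) ≤ K * β := by nlinarith
      nlinarith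
end Pool.Agent.helper7.SC
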