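import Pool.Agent.helper75.SC.WBasic

/-! Module WORD: weighted order of functions of degree at most `a`. -/

set_option autoImplicit false

namespace Pool.Agent.helper41.SC

open MvPolynomial Pool.Agent.helper5.NBS Pool.Agent.helper7.SC Pool.Agent.helper75.SC

/-- the exponent `(b, c)` -/
noncomputable def wex (b c : ℕ) : Fin 2 →₀ ℕ := Finsupp.single 0 b + Finsupp.single 1 c

lemma wex_zero (b c : ℕ) : wex b c 0 = b := by simp [wex]
lemma wex_one (b c : ℕ) : wex b c 1 = c := by simp [wex]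

lemma eq_wex (k : Fin 2 →₀ ℕ) : k = wex (k 0) (k 1) := by
  ext i
  fin_cases i
  · exact (wex_zero _ _).symm
  · exact (wex_one _ _).symm

section

variable {R : Type} [CommRing R] [IsDomain R] [Algebra ℂ R] {n : ℕ} {x : Fin n → R}
  {N : ℕ} {h v : R} {ε : R →ₐ[ℂ] ℂ}

/-- growth contradiction -/
lemma growth_contra (D : ℕ → ℕ) (N a : ℕ) (ha : 0 < a) (c : ℤ) (s2 : ℕ)
    (hmono : Monotone D)
    (hup : ∀ s : ℕ, 2 * (D s : ℤ) - N * (s : ℤ) ^ 2 ≤ c * (s + 1))
    (hrec : ∀ s, s2 ≤ s → (N * a + 1) + D (s + a) + D (s + 1) ≤ D (s + 1 + a) + D s) : False := by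
  -- g(s) = D (s + a) - D s
  have h1 : ∀ j, j * (N * a + 1) + D (s2 + j) ≤ D (s2 + j + a) := by
    intro j
    induction j with
    | zero => simpa using hmono (by omega : s2 ≤ s2 + a)
    | succ j ih =>
      have h2 := hrec (s2 + j) (by omega)
      have h3 : (j + 1) * (N * a + 1) = j * (N * a + 1) + (N * a + 1) := by ring
      rw [h3, ← add_assoc s2 j 1]
      omega
  have h2 : ∀ k : ℕ, (a : ℤ) * (N * a + 1) * (k * (k - 1)) ≤ 2 * D (s2 + k * a) := by
    intro k
    induction k with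
    | zero => simp
    | succ k ih =>
      have h3 := h1 (k * a)
      have h4 : s2 + k * a + a = s2 + (k + 1) * a := by ring
      rw [h4] at h3
      have h5 : ((k * a * (N * a + 1) + D (s2 + k * a) : ℕ) : ℤ) ≤ D (s2 + (k + 1) * a) := by
        exact_mod_cast h3
      push_cast at h5 ⊢
      nlinarith
  -- take `k` large
  have hc : c ≤ |c| := le_abs_self c
  have hc0 : 0 ≤ |c| := abs_nonneg c
  obtain ⟨X, hX⟩ : ∃ X : ℕ, (X : ℤ) = a * (N * a + 1) + 2 * N * s2 * a + |c| * a :=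
    ⟨(a * (N * a + 1) + 2 * N * s2 * a + |c| * a : ℤ).toNat, Int.toNat_of_nonneg (by positivity)⟩
  obtain ⟨Y, hY⟩ : ∃ Y : ℕ, (Y : ℤ) = N * s2 ^ 2 + |c| * s2 + |c| :=
    ⟨(N * s2 ^ 2 + |c| * s2 + |c| : ℤ).toNat, Int.toNat_of_nonneg (by positivity)⟩
  set k := X + Y + 1 with hk
  have h3 := h2 k
  have h4 := hup (s2 + k * a)
  have h5 : c * ((s2 + k * a : ℕ) + 1 : ℤ) ≤ |c| * ((s2 + k * a : ℕ) + 1 : ℤ) :=
    mul_le_mul_of_nonneg_right hc (by positivity)
  push_cast at h4 h5
  have h6 : (a : ℤ) * k ^ 2 ≤ k * X + Y := by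
    rw [hX, hY]
    linear_combination h3 + h4 + h5
  have hk' : (k : ℤ) = X + Y + 1 := by exact_mod_cast hk
  have h7 : (k : ℤ) ^ 2 ≤ a * k ^ 2 := by
    have : (1 : ℤ) ≤ a := by exact_mod_cast ha
    nlinarith [sq_nonneg (k : ℤ)]
  have h8 : (k : ℤ) ^ 2 = k * X + k * Y + k := by
    rw [pow_two]
    nth_rewrite 2 [hk']
    ring
  have h9 : (Y : ℤ) ≤ k * Y := by
    have : (1 : ℤ) ≤ k := by
      have := Int.natCast_nonneg X
      have := Int.natCast_nonneg Y
      linarith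
    nlinarith [Int.natCast_nonneg Y]
  have h10 : (1 : ℤ) ≤ k := by
    have := Int.natCast_nonneg X
    have := Int.natCast_nonneg Y
    linarith
  linarith

/-- a function of degree at most `a` which does not vanish on the curve `h = 0` -/
lemma order_curve (S : Surf x N h v ε) (τ : R →ₐ[ℂ] MvPowerSeries (Fin 2) ℂ)
    (hv : τ v = MvPowerSeries.X 0) (hh : τ h = MvPowerSeries.X 1) {a : ℕ} (ha : 0 < a) {F : R}
    (hF : F ∈ W x a) (hFh : F ∉ Ideal.span {h}) :
    ∃ b ≤ N * a, MvPowerSeries.coeff (wex b 0) (τ F) ≠ 0 := by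
  classical
  by_contra hcon
  push Not at hcon
  have hF0 : F ≠ 0 := by
    rintro rfl
    exact hFh (zero_mem _)
  let ψ : R →ₗ[ℂ] (Fin (N * a + 1) → ℂ) := LinearMap.pi fun j =>
    (MvPowerSeries.coeff (wex (j : ℕ) 0)) ∘ₗ τ.toLinearMap
  have hψv : ∀ j : Fin (N * a + 1), ψ (v ^ (j : ℕ)) = Pi.single j 1 := by
    intro j
    funext i
    show MvPowerSeries.coeff (wex (i : ℕ) 0) (τ (v ^ (j : ℕ))) = _
    rw [map_pow, hv, MvPowerSeries.coeff_X_pow]
    by_cases hij : i = j
    · subst hij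
      rw [if_pos (by simp [wex]), Pi.single_eq_same]
    · rw [if_neg, Pi.single_eq_of_ne hij]
      intro h1
      have h2 := DFunLike.congr_fun h1 0
      rw [wex_zero] at h2
      simp at h2
      exact hij (Fin.ext h2)
  have hψh : ∀ G, ψ (h * G) = 0 := by
    intro G
    funext i
    show MvPowerSeries.coeff (wex (i : ℕ) 0) (τ (h * G)) = 0
    rw [map_mul, hh, MvPowerSeries.coeff_mul]
    apply Finset.sum_eq_zero
    rintro ⟨k, l⟩ hkl
    rw [Finset.HasAntidiagonal.mem_antidiagonal] at hkl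
    have h1 := DFunLike.congr_fun hkl 1
    simp only [Finsupp.add_apply, wex_one] at h1
    show MvPowerSeries.coeff k (MvPowerSeries.X 1) * _ = 0
    rw [MvPowerSeries.coeff_X, if_neg, zero_mul]
    rintro rfl
    simp at h1
  have hψF : ∀ G, ψ (F * G) = 0 := by
    intro G
    funext i
    show MvPowerSeries.coeff (wex (i : ℕ) 0) (τ (F * G)) = 0
    rw [map_mul, MvPowerSeries.coeff_mul]
    apply Finset.sum_eq_zero
    rintro ⟨k, l⟩ hkl
    rw [Finset.HasAntidiagonal.mem_antidiagonal] at hkl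
    have h0 := DFunLike.congr_fun hkl 0
    have h1 := DFunLike.congr_fun hkl 1
    simp only [Finsupp.add_apply, wex_zero, wex_one] at h0 h1
    have h2 : k = wex (k 0) 0 := by
      conv_lhs => rw [eq_wex k]
      congr 1
      omega
    show MvPowerSeries.coeff k (τ F) * _ = 0
    rw [h2, hcon (k 0) (by have := i.2; omega), zero_mul]
  -- a common degree for the powers of `v`
  choose d hd using fun j : Fin (N * a + 1) => exists_W S.gen (v ^ (j : ℕ))
  set s1 := Finset.univ.sup d with hs1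
  have hvs : ∀ j : Fin (N * a + 1), v ^ (j : ℕ) ∈ W x s1 := fun j =>
    W_mono x (Finset.le_sup (f := d) (Finset.mem_univ j)) (hd j)
  obtain ⟨s0, hsat⟩ := S.sat
  obtain ⟨c, hc⟩ := S.growth
  have hprime : ∀ G H : R, h ∣ G * H → h ∣ G ∨ h ∣ H := by
    intro G H hGH
    rw [← Ideal.mem_span_singleton] at hGH
    rw [← Ideal.mem_span_singleton, ← Ideal.mem_span_singleton]
    exact S.prime.mem_or_mem hGH
  apply growth_contra (fun s => Module.finrank ℂ (W x s)) N a ha c (s0 + s1)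
  · intro s t hst
    exact Submodule.finrank_mono (W_mono x hst)
  · intro s
    exact le_trans (le_abs_self _) (hc s)
  · intro s hs
    set T := s + 1 + a with hT
    set S1 := (W x (s + a)).map (LinearMap.mulLeft ℂ h) with hS1
    set S2 := (W x (s + 1)).map (LinearMap.mulLeft ℂ F) with hS2
    set S3 := (W x s).map (LinearMap.mulLeft ℂ (h * F)) with hS3
    have hle1 : S1 ≤ W x T := by
      rintro _ ⟨G, hG, rfl⟩
      have := W_mul x S.hW hG
      rw [LinearMap.mulLeft_apply]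
      rwa [show 1 + (s + a) = T by omega] at this
    have hle2 : S2 ≤ W x T := by
      rintro _ ⟨G, hG, rfl⟩
      have := W_mul x hF hG
      rw [LinearMap.mulLeft_apply]
      rwa [show a + (s + 1) = T by omega] at this
    have hle3 : S1 ⊓ S2 ≤ S3 := by
      rintro z ⟨⟨G, hG, rfl⟩, ⟨G', hG', he⟩⟩
      rw [LinearMap.mulLeft_apply, LinearMap.mulLeft_apply] at he
      rw [LinearMap.mulLeft_apply]
      have hdvd : h ∣ F * G' := ⟨G, he⟩
      rcases hprime _ _ hdvd with h1 | h1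
      · exact absurd (Ideal.mem_span_singleton.mpr h1) hFh
      · obtain ⟨H, rfl⟩ := h1
        have hH : H ∈ W x s := hsat s (by omega) H hG'
        refine ⟨H, hH, ?_⟩
        rw [LinearMap.mulLeft_apply, ← he]
        ring
    have hinj : ∀ z : R, z ≠ 0 → Function.Injective (LinearMap.mulLeft ℂ z) := by
      intro z hz G G' he
      rw [LinearMap.mulLeft_apply, LinearMap.mulLeft_apply] at he
      exact mul_left_cancel₀ hz he
    have e1 : Module.finrank ℂ S1 = Module.finrank ℂ (W x (s + a)) :=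
      (Submodule.equivMapOfInjective _ (hinj h S.h0) _).finrank_eq.symm
    have e2 : Module.finrank ℂ S2 = Module.finrank ℂ (W x (s + 1)) :=
      (Submodule.equivMapOfInjective _ (hinj F hF0) _).finrank_eq.symm
    have e3 : Module.finrank ℂ S3 ≤ Module.finrank ℂ (W x s) :=
      Submodule.finrank_map_le _ _
    have e4 : Module.finrank ℂ ↥(S1 ⊓ S2) ≤ Module.finrank ℂ S3 := Submodule.finrank_mono hle3
    have e5 := Submodule.finrank_sup_add_finrank_inf_eq S1 S2
    let ψ0 : W x T →ₗ[ℂ] (Fin (N * a + 1) → ℂ) := ψ ∘ₗ (W x T).subtype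
    have hrange : LinearMap.range ψ0 = ⊤ := by
      rw [eq_top_iff, ← (Pi.basisFun ℂ (Fin (N * a + 1))).span_eq, Submodule.span_le]
      rintro _ ⟨j, rfl⟩
      rw [Pi.basisFun_apply]
      exact ⟨⟨v ^ (j : ℕ), W_mono x (by omega) (hvs j)⟩, hψv j⟩
    have e6 := LinearMap.finrank_range_add_finrank_ker ψ0
    rw [hrange, finrank_top, Module.finrank_fintype_fun_eq_card, Fintype.card_fin] at e6
    have hsup : S1 ⊔ S2 ≤ W x T := sup_le hle1 hle2
    have hker : S1 ⊔ S2 ≤ LinearMap.ker ψ := by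
      apply sup_le
      · rintro _ ⟨G, hG, rfl⟩
        exact LinearMap.mem_ker.mpr (hψh G)
      · rintro _ ⟨G, hG, rfl⟩
        exact LinearMap.mem_ker.mpr (hψF G)
    have e7 : Module.finrank ℂ ↥(S1 ⊔ S2) ≤ Module.finrank ℂ (LinearMap.ker ψ0) := by
      rw [← (Submodule.comapSubtypeEquivOfLe hsup).finrank_eq]
      apply Submodule.finrank_mono
      intro z hz
      rw [Submodule.mem_comap] at hz
      exact LinearMap.mem_ker.mp (hker hz)
    omega

omit [IsDomain R] in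
/-- on a finite-dimensional space the weighted order is bounded -/
lemma order_fin (τ : R →ₐ[ℂ] MvPowerSeries (Fin 2) ℂ) (hτ : Function.Injective τ) (N : ℕ)
    (V : Submodule ℂ R) [Module.Finite ℂ V] :
    ∃ c0 : ℕ, ∀ F ∈ V, F ≠ 0 →
      ∃ k : Fin 2 →₀ ℕ, k 0 + N * k 1 ≤ c0 ∧ MvPowerSeries.coeff k (τ F) ≠ 0 := by
  let K : ℕ → Submodule ℂ V := fun c => ⨅ k : {k : Fin 2 →₀ ℕ // k 0 + N * k 1 ≤ c},
    LinearMap.ker ((MvPowerSeries.coeff k.1) ∘ₗ τ.toLinearMap ∘ₗ V.subtype)
  have hK : ∀ c (F : V), F ∈ K c ↔ ∀ k : Fin 2 →₀ ℕ, k 0 + N * k 1 ≤ c →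
      MvPowerSeries.coeff k (τ F.1) = 0 := by
    intro c F
    simp only [K, Submodule.mem_iInf, LinearMap.mem_ker, Subtype.forall]
    rfl
  have hanti : Antitone K := by
    intro c c' hcc F hF
    rw [hK] at hF ⊢
    exact fun k hk => hF k (hk.trans hcc)
  obtain ⟨c0, hc0⟩ := IsArtinian.monotone_stabilizes (R := ℂ) (M := V)
    ⟨fun c => OrderDual.toDual (K c), fun c c' hcc => hanti hcc⟩
  refine ⟨c0, fun F hF hF0 => ?_⟩
  by_contra hcon
  push Not at hcon
  have h1 : (⟨F, hF⟩ : V) ∈ K c0 := (hK _ _).mpr hcon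
  apply hF0
  apply hτ
  rw [map_zero]
  ext k
  rw [map_zero]
  have h2 : K c0 = K (max c0 (k 0 + N * k 1)) := hc0 _ (le_max_left _ _)
  rw [h2, hK] at h1
  exact h1 k (le_max_right _ _)

end

end Pool.Agent.helper41.SC

namespace Pool.Agent.helper7.SC

open MvPolynomial Pool.Agent.helper5.NBS Pool.Agent.helper41.SC Pool.Agent.helper75.SC

theorem w_order {R : Type} [CommRing R] [IsDomain R] [Algebra ℂ R] {n : ℕ} {x : Fin n → R}
    {N : ℕ} (hN : 0 < N) {h v : R} {ε : R →ₐ[ℂ] ℂ} (S : Surf x N h v ε)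
    (τ : R →ₐ[ℂ] MvPowerSeries (Fin 2) ℂ) (hτ : Function.Injective τ)
    (hv : τ v = MvPowerSeries.X 0) (hh : τ h = MvPowerSeries.X 1) :
    ∃ c0 : ℕ, ∀ (a : ℕ) (F : R), F ∈ W x a → F ≠ 0 →
      ∃ k : Fin 2 →₀ ℕ, k 0 + N * k 1 ≤ N * a + c0 ∧ MvPowerSeries.coeff k (τ F) ≠ 0 := by
  obtain ⟨s0, hsat⟩ := S.sat
  obtain ⟨c0, hc0⟩ := order_fin τ hτ N (W x s0)
  refine ⟨c0, fun a => ?_⟩
  induction a with
  | zero =>
    intro F hF hF0
    obtain ⟨k, hk, hk'⟩ := hc0 F (W_mono x (Nat.zero_le _) hF) hF0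
    exact ⟨k, by omega, hk'⟩
  | succ a ih =>
    intro F hF hF0
    rcases Nat.lt_or_ge a s0 with ha | ha
    · obtain ⟨k, hk, hk'⟩ := hc0 F (W_mono x ha hF) hF0
      exact ⟨k, by omega, hk'⟩
    · by_cases hFh : F ∈ Ideal.span {h}
      · rw [Ideal.mem_span_singleton] at hFh
        obtain ⟨G, rfl⟩ := hFh
        have hG := hsat a ha G hF
        have hG0 : G ≠ 0 := by
          rintro rfl
          exact hF0 (mul_zero _)
        obtain ⟨k, hk, hk'⟩ := ih G hG hG0
        refine ⟨k + Finsupp.single 1 1, ?_, ?_⟩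
        · simp only [Finsupp.add_apply]
          simp
          rw [mul_add, mul_add]
          omega
        · rw [map_mul, hh, add_comm, MvPowerSeries.X, MvPowerSeries.coeff_add_monomial_mul,
            one_mul]
          exact hk'
      · obtain ⟨b, hb, hb'⟩ := order_curve S τ hv hh (Nat.succ_pos a) hF hFh
        rw [Nat.succ_eq_add_one] at hb
        exact ⟨wex b 0, by rw [wex_zero, wex_one]; omega, hb'⟩

end Pool.Agent.helper7.SC
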